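import Pool.Agent.V11302.FM.BMain

/-!
# Squares of the Frobenius traces at a sparse set of primes

Let `f` be any function. There is a sequence `T` of prime numbers, growing faster than prescribed by `f`,
such that for every number field `K`, every prime number `p`, every finite extension `E` of `ℚ_p`, every
irreducible representation `ρ : G_K → GL_2(E)` (for example the Tate module of an elliptic curve over `K`) and
every finite family of semisimple representations `τ_c : G_K → GL_2(E)` with the same determinant (for example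
the representations of weight two Bianchi newforms), all continuous and unramified outside a finite set of
primes: if for every Frobenius element `σ` of `G_K` above almost every `T i` there is an index `c` (which may
depend on `σ`) with `(tr ρ(σ))² = (tr τ_c(σ))²`, then `ρ` is a quotient of `τ_c ⊗ π` for one index `c` and a
representation `π` of the Galois group of a finite extension of `K`; if `ρ` is absolutely irreducible on every
open subgroup (for example an elliptic curve without complex multiplication), then `ρ` is a quadratic twist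
of `τ_c`: `ρ(σ) = ε(σ) Q τ_c(σ) Q⁻¹` with a character `ε` with values `±1`.

Nothing is assumed at the places above `p`. The set `T` is very thin: there is a totally real field `L` of
infinite degree, Galois and unramified at all finite places over a real quadratic field, in which all the
primes `T i` split completely.
-/

set_option autoImplicit false

namespace Pool.Agent.Results.MP_87c685_nt.SquaresOfTracesAtSparsePrimes

open NumberField IntermediateField Module Kronecker

attribute [local instance 10] DivisionRing.toRatAlgebra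

/-- the absolute Galois group of `ℚ` -/
abbrev GQ : Type := Gal(AlgebraicClosure ℚ/ℚ)

/-- the ring of all algebraic integers -/
abbrev ZBar : Type := 𝓞 (AlgebraicClosure ℚ)

/-- `τ` lies in the inertia group at the maximal ideal `P` of the ring of all algebraic integers -/
def Inertia (P : Ideal ZBar) (τ : GQ) : Prop := ∀ x : ZBar, τ • x - x ∈ P

/-- `σ` is a (geometric) Frobenius element at the maximal ideal `P` above the prime number `q`: it induces
the inverse of `x ↦ x ^ q` on the residue field -/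
def Frobenius (q : ℕ) (P : Ideal ZBar) (σ : GQ) : Prop := ∀ x : ZBar, x - (σ • x) ^ q ∈ P

/-- `L` is a totally real Galois extension of infinite degree of the real quadratic field `k`, unramified at
all finite places, and a union of finite extensions of `ℚ` whose degrees are powers of two -/
structure UnramifiedTower (k L : IntermediateField ℚ (AlgebraicClosure ℚ)) : Prop where
  quadratic : finrank ℚ k = 2 ∧ ∃ s ∈ k,
    s ^ 2 = ((17 * 41 * 73 * 89 * 97 * 113 * 137 * 193 * 233 * 241 : ℕ) : AlgebraicClosure ℚ)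
  le : k ≤ L
  infinite : ¬ FiniteDimensional ℚ L
  galois : ∀ σ : GQ, (∀ x ∈ k, σ x = x) → ∀ y ∈ L, σ y ∈ L
  unramified : ∀ q : ℕ, q.Prime → ∀ P : Ideal ZBar, P.IsMaximal → (q : ZBar) ∈ P → ∀ τ : GQ,
    (∀ x ∈ k, τ x = x) → Inertia P τ → ∀ y ∈ L, τ y = y
  real : ∀ (φ : L →+* ℂ) (y : L), (φ y).im = 0
  two : ∀ y ∈ L, ∃ m : ℕ, finrank ℚ ℚ⟮y⟯ = 2 ^ m

/-- the prime number `q` is unramified and splits completely in `L`: all inertia elements and all Frobenius
elements above `q` fix `L` -/
def SplitsCompletely (q : ℕ) (L : IntermediateField ℚ (AlgebraicClosure ℚ)) : Prop :=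
  ∀ P : Ideal ZBar, P.IsMaximal → (q : ZBar) ∈ P → ∀ σ : GQ, Inertia P σ ∨ Frobenius q P σ →
    ∀ y ∈ L, σ y = y

section rep

variable {K : IntermediateField ℚ (AlgebraicClosure ℚ)} {p : ℕ} [Fact p.Prime]
  {E : IntermediateField ℚ_[p] (PadicAlgCl p)} {n : ℕ}

/-- `ρ` is continuous and unramified outside a finite set of primes -/
def AlmostUnramified (ρ : K.fixingSubgroup →* GL (Fin n) E) : Prop :=
  Continuous ρ ∧
  ∃ S : Finset ℕ, ∀ q : ℕ, q.Prime → q ∉ S → ∀ P : Ideal ZBar, P.IsMaximal → (q : ZBar) ∈ P →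
    ∀ τ : K.fixingSubgroup, Inertia P τ → ρ τ = 1

/-- the subspace `W` is stable under `ρ` -/
def IsStable (ρ : K.fixingSubgroup →* GL (Fin n) E) (W : Submodule E (Fin n → E)) : Prop :=
  ∀ g, ∀ w ∈ W, (ρ g : Matrix (Fin n) (Fin n) E).mulVec w ∈ W

/-- every stable subspace is zero or everything -/
def Irreducible (ρ : K.fixingSubgroup →* GL (Fin n) E) : Prop :=
  ∀ W : Submodule E (Fin n → E), IsStable ρ W → W = ⊥ ∨ W = ⊤

/-- every stable subspace has a stable complement -/
def Semisimple (ρ : K.fixingSubgroup →* GL (Fin n) E) : Prop :=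
  ∀ W : Submodule E (Fin n → E), IsStable ρ W → ∃ W', IsStable ρ W' ∧ IsCompl W W'

/-- `ρ` is absolutely irreducible on every open subgroup: the matrices of the elements of an open subgroup
span the space of all matrices (theorem of Burnside) -/
def StronglyIrreducible (ρ : K.fixingSubgroup →* GL (Fin n) E) : Prop :=
  ∀ V : Subgroup GQ, IsOpen (V : Set GQ) →
    Submodule.span E {X | ∃ σ : K.fixingSubgroup, (σ : GQ) ∈ V ∧
      X = (ρ σ : Matrix (Fin n) (Fin n) E)} = ⊤

/-- for all Frobenius elements `σ` of `G_K` above almost all `T i` there is an index `c` such that the traces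
of `ρ(σ)` and `τ_c(σ)` agree up to sign -/
def SquaresAgree (T : ℕ → ℕ) (ρ : K.fixingSubgroup →* GL (Fin n) E) {r : ℕ}
    (τ : Fin r → K.fixingSubgroup →* GL (Fin n) E) : Prop :=
  ∃ i₀ : ℕ, ∀ i ≥ i₀, ∀ P : Ideal ZBar, P.IsMaximal → (T i : ZBar) ∈ P →
    ∀ σ : K.fixingSubgroup, Frobenius (T i) P σ → ∃ c,
      (ρ σ : Matrix (Fin n) (Fin n) E).trace ^ 2 = (τ c σ : Matrix (Fin n) (Fin n) E).trace ^ 2

/-- `ρ` is a quotient of `τ ⊗ π` for a representation `π` of the Galois group of a finite extension of `K`,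
i.e. a representation `π` of `G_K` which is trivial on an open subgroup -/
def IsQuotientUpToArtin (ρ τ : K.fixingSubgroup →* GL (Fin n) E) : Prop :=
  ∃ (d : ℕ) (π : K.fixingSubgroup →* GL (Fin d) E)
    (A : Matrix (Fin n) (Fin n × Fin d) E),
    (∃ V : Subgroup GQ, IsOpen (V : Set GQ) ∧ ∀ σ : K.fixingSubgroup, (σ : GQ) ∈ V → π σ = 1) ∧
    Function.Surjective A.mulVec ∧ ∀ σ, (ρ σ : Matrix (Fin n) (Fin n) E) * A =
      A * ((τ σ : Matrix (Fin n) (Fin n) E) ⊗ₖ (π σ : Matrix (Fin d) (Fin d) E))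

/-- `ρ` is isomorphic to the twist of `τ` by a character `ε` with values `±1` (trivial on an open
subgroup) -/
def IsQuadraticTwist (ρ τ : K.fixingSubgroup →* GL (Fin n) E) : Prop :=
  ∃ (Q : GL (Fin n) E) (ε : K.fixingSubgroup →* (E : Type)ˣ),
    (∀ σ, ε σ = 1 ∨ ε σ = -1) ∧
    (∃ V : Subgroup GQ, IsOpen (V : Set GQ) ∧ ∀ σ : K.fixingSubgroup, (σ : GQ) ∈ V → ε σ = 1) ∧
    ∀ σ, (ρ σ : Matrix (Fin n) (Fin n) E) =
      (ε σ : E) • ((Q : Matrix (Fin n) (Fin n) E) *
        (τ σ : Matrix (Fin n) (Fin n) E) *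
        ((Q⁻¹ : GL (Fin n) E) : Matrix (Fin n) (Fin n) E))

end rep

theorem pow_eq_one_two {F : Type*} [Field F] {x : F} (h : x ^ 2 = 1) : x = 1 ∨ x = -1 := by
  have h1 : (x - 1) * (x + 1) = 0 := by linear_combination h
  rcases mul_eq_zero.1 h1 with h2 | h2
  · exact Or.inl (sub_eq_zero.1 h2)
  · exact Or.inr (eq_neg_of_add_eq_zero_left h2)

/-- equal determinants and equal squares of the traces -/
theorem charpoly_sq {F : Type*} [Field F] {A B : Matrix (Fin 2) (Fin 2) F} (hd : A.det = B.det)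
    (ht : A.trace ^ 2 = B.trace ^ 2) : (A ^ 2).charpoly = (B ^ 2).charpoly := by
  have key : ∀ C : Matrix (Fin 2) (Fin 2) F, (C ^ 2).trace = C.trace ^ 2 - 2 * C.det := by
    intro C
    rw [pow_two C, Matrix.trace_fin_two, Matrix.trace_fin_two, Matrix.det_fin_two, Matrix.mul_apply,
      Matrix.mul_apply, Fin.sum_univ_two, Fin.sum_univ_two]
    ring
  rw [Matrix.charpoly_fin_two, Matrix.charpoly_fin_two, key, key, Matrix.det_pow, Matrix.det_pow, hd, ht]

/-- **Main result.** -/
theorem result (f : ℕ → ℕ) :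
    ∃ (T : ℕ → ℕ) (k L : IntermediateField ℚ (AlgebraicClosure ℚ)),
      (∀ i, (T i).Prime ∧ T i < T (i + 1) ∧ f (T i) < T (i + 1)) ∧
      UnramifiedTower k L ∧ (∀ i, SplitsCompletely (T i) L) ∧
      ∀ (K : IntermediateField ℚ (AlgebraicClosure ℚ)), FiniteDimensional ℚ K →
        ∀ (p : ℕ) [Fact p.Prime] (E : IntermediateField ℚ_[p] (PadicAlgCl p)),
        FiniteDimensional ℚ_[p] E → ∀ (ρ : K.fixingSubgroup →* GL (Fin 2) E),
          AlmostUnramified ρ → Irreducible ρ →
          ∀ (r : ℕ) (τ : Fin r → K.fixingSubgroup →* GL (Fin 2) E),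
          (∀ c, AlmostUnramified (τ c) ∧ Semisimple (τ c) ∧
            ∀ σ, (τ c σ : Matrix (Fin 2) (Fin 2) E).det = (ρ σ : Matrix (Fin 2) (Fin 2) E).det) →
          SquaresAgree T ρ τ →
          ∃ c, IsQuotientUpToArtin ρ (τ c) ∧ (StronglyIrreducible ρ → IsQuadraticTwist ρ (τ c)) := by
  obtain ⟨T, k, L, hT1, hT2, htow, hrep⟩ := Pool.Agent.V11302.FM.mainB f
  refine ⟨T, k, L, fun i => ⟨hT1 i, ?_, ?_⟩, ⟨⟨htow.rank, htow.sqrt⟩, htow.le, htow.inf, htow.galois,
    htow.unr, htow.real, htow.two⟩, ?_, ?_⟩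
  · have := hT2 i
    omega
  · have := hT2 i
    have := (hT1 i).pos
    omega
  · intro i P hP hTP σ hσ
    rcases hσ with hσ | hσ
    · exact htow.unrT i P hP hTP σ hσ
    · exact htow.split i P hP hTP σ hσ
  · intro K hK p hp E hE ρ hρ hirr r τ hτ hag
    obtain ⟨hρc, S, hS⟩ := hρ
    obtain ⟨i0, hi0⟩ := hag
    obtain ⟨c, d, π, A, h1, h2, h3, h4⟩ := hrep K.fixingSubgroup K.fixingSubgroup_isOpen p E hE 2 ρ hρc
      ⟨S, fun q hq hqS P hP hqP τ hτ hτP => hS q hq hqS P hP hqP ⟨τ, hτ⟩ hτP⟩
      (fun W hW => hirr W hW) (by norm_num) r τ (fun c => (hτ c).1.1)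
      (fun c => by
        obtain ⟨S', hS'⟩ := (hτ c).1.2
        exact ⟨S', fun q hq hqS P hP hqP t ht htP => hS' q hq hqS P hP hqP ⟨t, ht⟩ htP⟩)
      (fun c W hW => (hτ c).2.1 W hW)
      ⟨i0, fun i hi P hP hTP σ hσ hσP => by
        obtain ⟨c, hc⟩ := hi0 i hi P hP hTP ⟨σ, hσ⟩ hσP
        exact ⟨c, 2, by norm_num, charpoly_sq ((hτ c).2.2 _).symm hc⟩⟩
    refine ⟨c, ⟨d, π, A, h1, h2, h3⟩, fun hs => ?_⟩
    obtain ⟨Q, ε, h5, h6⟩ := h4 hs
    refine ⟨Q, ε, fun σ => ?_, h5, h6⟩
    have h7 := congrArg Matrix.det (h6 σ)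
    rw [Matrix.det_smul, Matrix.det_mul, Matrix.det_mul, (hτ c).2.2 σ, Fintype.card_fin] at h7
    have h8 : (Q : Matrix (Fin 2) (Fin 2) E).det *
        ((Q⁻¹ : GL (Fin 2) E) : Matrix (Fin 2) (Fin 2) E).det = 1 := by
      rw [← Matrix.det_mul, Units.mul_inv, Matrix.det_one]
    have h9 : (ρ σ : Matrix (Fin 2) (Fin 2) E).det ≠ 0 := by
      have h10 : IsUnit (ρ σ : Matrix (Fin 2) (Fin 2) E) := (ρ σ).isUnit
      exact ((Matrix.isUnit_iff_isUnit_det _).1 h10).ne_zero
    have h11 : (ε σ : E) ^ 2 = 1 := by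
      apply mul_right_cancel₀ h9
      linear_combination (-1 : E) * h7 - (ε σ : E) ^ 2 * (ρ σ : Matrix (Fin 2) (Fin 2) E).det * h8
    rcases (pow_eq_one_two h11) with h12 | h12
    · exact Or.inl (Units.ext h12)
    · exact Or.inr (Units.ext h12)

end Pool.Agent.Results.MP_87c685_nt.SquaresOfTracesAtSparsePrimes
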